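import Mathlib
import Pool.Agent.Lib.MP_9b5ce2_ntD.Main
import Pool.Agent.Lib.MP_9b5ce2_ntD.LowC

/-!
# Almost all everywhere locally soluble integers are not sums of two rational fourth powers
-/

namespace Pool.Agent.Results.MP_9b5ce2_nt.LocallySoluble

/-- `c` is admissible: `x ^ 4 + y ^ 4 = c z ^ 4` has a solution in integers with `x, y` coprime and `z > 1` -/
def Admissible (c : ℤ) : Prop := ∃ x y z : ℤ, IsCoprime x y ∧ 1 < z ∧ x ^ 4 + y ^ 4 = c * z ^ 4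

/-- `c` is a sum of two fourth powers of rational numbers -/
def RatSum (c : ℕ) : Prop := ∃ x y : ℚ, x ^ 4 + y ^ 4 = c

/-- `c` is a sum of two fourth powers in `ℚ_p` for every prime `p` -/
def LocSum (c : ℕ) : Prop := ∀ (p : ℕ) [Fact p.Prime], ∃ x y : ℚ_[p], x ^ 4 + y ^ 4 = c

/-- the number of the integers `1 ≤ c ≤ N` with the property `P` -/
noncomputable def cnt (P : ℕ → Prop) (N : ℕ) : ℝ := (Nat.card {c : ℕ // 1 ≤ c ∧ c ≤ N ∧ P c} : ℝ)

private lemma fin_cnt (P : ℕ → Prop) (N : ℕ) : Finite {c : ℕ // 1 ≤ c ∧ c ≤ N ∧ P c} :=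
  Set.Finite.to_subtype ((Set.finite_Iic N).subset fun _ hc => hc.2.1)

private lemma cnt_mono {P P' : ℕ → Prop} (h : ∀ c, P c → P' c) (N : ℕ) : cnt P N ≤ cnt P' N := by
  have := fin_cnt P' N
  have h1 : Nat.card {c : ℕ // 1 ≤ c ∧ c ≤ N ∧ P c} ≤ Nat.card {c : ℕ // 1 ≤ c ∧ c ≤ N ∧ P' c} := by
    refine Nat.card_le_card_of_injective (fun c => (⟨c.1, c.2.1, c.2.2.1, h _ c.2.2.2⟩ : {c : ℕ // 1 ≤ c ∧ c ≤ N ∧ P' c})) ?_
    intro a b hab
    have h2 := congrArg Subtype.val hab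
    exact Subtype.ext h2
  unfold cnt
  exact_mod_cast h1

private lemma rat_of_adm (c : ℕ) (h : Admissible (c : ℤ)) : RatSum c := by
  obtain ⟨x, y, z, -, hz, e⟩ := h
  have hz0 : (z : ℚ) ≠ 0 := by
    have : z ≠ 0 := by omega
    exact_mod_cast this
  refine ⟨x / z, y / z, ?_⟩
  rw [div_pow, div_pow, ← add_div, div_eq_iff (pow_ne_zero 4 hz0)]
  exact_mod_cast e

private lemma pos_of_adm (c : ℤ) (h : Admissible c) : 1 ≤ c := by
  obtain ⟨x, y, z, hxy, hz, e⟩ := h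
  have h1 : 0 < x ^ 4 + y ^ 4 := by
    by_contra h0
    have hx4 : 0 ≤ x ^ 4 := by positivity
    have hy4 : 0 ≤ y ^ 4 := by positivity
    have hx : x = 0 := by
      have : x ^ 4 = 0 := by omega
      exact pow_eq_zero_iff (by norm_num) |>.1 this
    have hy : y = 0 := by
      have : y ^ 4 = 0 := by omega
      exact pow_eq_zero_iff (by norm_num) |>.1 this
    rw [hx, hy] at hxy
    exact not_isCoprime_zero_zero hxy
  rw [e] at h1
  have h2 : 0 < z ^ 4 := by positivity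
  by_contra h3
  have h4 : c ≤ 0 := by omega
  have h5 : c * z ^ 4 ≤ 0 := mul_nonpos_of_nonpos_of_nonneg h4 h2.le
  omega

private lemma ratio {A B r l n L : ℝ} (hA : 0 < A) (hL : 0 < L) (h1 : r ≤ A * (n / L ^ (15 / 16 : ℝ)))
    (h2 : n / L ^ (3 / 4 : ℝ) ≤ B * l) : r ≤ A * B * (l / L ^ (3 / 16 : ℝ)) := by
  have hp : 0 < L ^ (3 / 16 : ℝ) := Real.rpow_pos_of_pos hL _
  have e : L ^ (15 / 16 : ℝ) = L ^ (3 / 4 : ℝ) * L ^ (3 / 16 : ℝ) := by
    rw [← Real.rpow_add hL]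
    norm_num
  calc r ≤ A * (n / L ^ (15 / 16 : ℝ)) := h1
    _ = A * ((n / L ^ (3 / 4 : ℝ)) / L ^ (3 / 16 : ℝ)) := by rw [e, div_div]
    _ ≤ A * ((B * l) / L ^ (3 / 16 : ℝ)) := by gcongr
    _ = A * B * (l / L ^ (3 / 16 : ℝ)) := by ring

/-- Only a proportion `O((log N) ^ (-3/16))` of the everywhere locally soluble `c ≤ N` are sums of two rational fourth
powers, and the same is true in every residue class containing an everywhere locally soluble integer. -/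
theorem result :
    (∀ c : ℤ, Admissible c → ∃ n : ℕ, c = n ∧ 1 ≤ n ∧ RatSum n) ∧
    (∃ A : ℝ, 0 < A ∧ ∀ N : ℕ, 2 ≤ N →
      cnt RatSum N ≤ A * (N / Real.log N ^ (15 / 16 : ℝ)) ∧
      N / Real.log N ^ (3 / 4 : ℝ) ≤ A * cnt LocSum N ∧
      cnt LocSum N ≤ A * (N / Real.log N ^ (3 / 4 : ℝ)) ∧
      cnt RatSum N ≤ A * (cnt LocSum N / Real.log N ^ (3 / 16 : ℝ))) ∧
    (∀ c₀ : ℕ, 1 ≤ c₀ → LocSum c₀ → ∀ M : ℕ, 1 ≤ M →
      ∃ A : ℝ, 0 < A ∧ ∃ N₀ : ℕ, ∀ N : ℕ, N₀ ≤ N →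
        N / Real.log N ^ (3 / 4 : ℝ) ≤ A * cnt (fun c => c ≡ c₀ [MOD M] ∧ LocSum c) N ∧
        cnt (fun c => c ≡ c₀ [MOD M] ∧ RatSum c) N ≤
          A * (cnt (fun c => c ≡ c₀ [MOD M] ∧ LocSum c) N / Real.log N ^ (3 / 16 : ℝ))) := by
  obtain ⟨A1, hA1, h1⟩ := FD.up_all
  have e1 : ∀ N : ℕ, 2 ≤ N → cnt RatSum N ≤ A1 * (N / Real.log N ^ (15 / 16 : ℝ)) := h1
  refine ⟨fun c hc => ?_, ?_, ?_⟩
  · have h2 := pos_of_adm c hc
    lift c to ℕ using (by omega)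
    exact ⟨c, rfl, by omega, rat_of_adm c hc⟩
  · obtain ⟨A2, hA2, h2⟩ := FD.low
    obtain ⟨A3, hA3, h3⟩ := FD.loc_all
    have e2 : ∀ N : ℕ, 2 ≤ N → N / Real.log N ^ (3 / 4 : ℝ) ≤ A2 * cnt LocSum N := h2
    have e3 : ∀ N : ℕ, 2 ≤ N → cnt LocSum N ≤ A3 * (N / Real.log N ^ (3 / 4 : ℝ)) := h3
    refine ⟨A1 + A2 + A3 + A1 * A2, by positivity, fun N hN => ?_⟩
    have hL : 0 < Real.log N := Real.log_pos (by exact_mod_cast (by omega : 1 < N))
    have hl : 0 ≤ cnt LocSum N := Nat.cast_nonneg _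
    have p1 : 0 ≤ (N : ℝ) / Real.log N ^ (15 / 16 : ℝ) := by positivity
    have p2 : 0 ≤ (N : ℝ) / Real.log N ^ (3 / 4 : ℝ) := by positivity
    have p3 : 0 ≤ cnt LocSum N / Real.log N ^ (3 / 16 : ℝ) := by positivity
    have q : 0 < A1 * A2 := by positivity
    refine ⟨(e1 N hN).trans ?_, (e2 N hN).trans ?_, (e3 N hN).trans ?_,
      (ratio hA1 hL (e1 N hN) (e2 N hN)).trans ?_⟩
    · exact mul_le_mul_of_nonneg_right (by linarith) p1
    · exact mul_le_mul_of_nonneg_right (by linarith) hl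
    · exact mul_le_mul_of_nonneg_right (by linarith) p2
    · exact mul_le_mul_of_nonneg_right (by linarith) p3
  · intro c₀ hc₀ hloc M hM
    have hmod : ∀ c : ℕ, c ≡ c₀ [MOD M] ↔ (M : ℤ) ∣ (c : ℤ) - c₀ := by
      intro c
      rw [Nat.modEq_iff_dvd, ← dvd_neg, neg_sub]
    obtain ⟨A4, hA4, N0, h4⟩ := FD.low_cls c₀ hc₀ hloc M hM
    refine ⟨A4 + A1 * A4, by positivity, max N0 2, fun N hN => ?_⟩
    have hN0 : N0 ≤ N := (le_max_left _ _).trans hN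
    have hN2 : 2 ≤ N := (le_max_right _ _).trans hN
    have hL : 0 < Real.log N := Real.log_pos (by exact_mod_cast (by omega : 1 < N))
    have e4 : N / Real.log N ^ (3 / 4 : ℝ) ≤ A4 * cnt (fun c => c ≡ c₀ [MOD M] ∧ LocSum c) N := by
      have h5 := h4 N hN0
      have h6 : cnt (fun c => c ≡ c₀ [MOD M] ∧ LocSum c) N =
          (Nat.card {c : ℕ // 1 ≤ c ∧ c ≤ N ∧ (M : ℤ) ∣ (c : ℤ) - c₀ ∧ FD.Loc4 c} : ℝ) := by
        unfold cnt
        simp only [hmod]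
        rfl
      rw [h6]
      exact h5
    have hl : 0 ≤ cnt (fun c => c ≡ c₀ [MOD M] ∧ LocSum c) N := Nat.cast_nonneg _
    have p3 : 0 ≤ cnt (fun c => c ≡ c₀ [MOD M] ∧ LocSum c) N / Real.log N ^ (3 / 16 : ℝ) := by positivity
    have q : 0 < A1 * A4 := by positivity
    refine ⟨e4.trans ?_, (ratio hA1 hL ((cnt_mono (fun c h => h.2) N).trans (e1 N hN2)) e4).trans ?_⟩
    · exact mul_le_mul_of_nonneg_right (by linarith) hl
    · exact mul_le_mul_of_nonneg_right (by linarith) p3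

end Pool.Agent.Results.MP_9b5ce2_nt.LocallySoluble
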