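import Mathlib
import Pool.Agent.Lib.MP_9b5ce2_ntD.SmF

/-!
# The number of the integers `c ≤ N` for which `x ^ 4 + y ^ 4 = c z ^ 4` has a solution with small `z`
-/

namespace Pool.Agent.Results.MP_9b5ce2_nt.SmallSolutions

/-- `x ^ 4 + y ^ 4 = c z ^ 4` has a solution in integers with `x, y` coprime and `1 < z ≤ Z` -/
def AdmissibleBy (Z : ℝ) (c : ℤ) : Prop :=
  ∃ x y z : ℤ, IsCoprime x y ∧ 1 < z ∧ (z : ℝ) ≤ Z ∧ x ^ 4 + y ^ 4 = c * z ^ 4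

/-- `c` is a sum of two fourth powers in `ℚ_p` for every prime `p` -/
def LocSum (c : ℕ) : Prop := ∀ (p : ℕ) [Fact p.Prime], ∃ x y : ℚ_[p], x ^ 4 + y ^ 4 = c

/-- At most `A (√N + Z)` integers `c ≤ N` have a solution with `1 < z ≤ Z`, and in every residue class which contains a
fourth power free everywhere locally soluble integer at least `√N / (A log N)` integers `c ≤ N` have a solution with
`1 < z ≤ A`. -/
theorem result :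
    (∃ A : ℝ, 0 < A ∧ ∀ (N : ℕ) (Z : ℝ), 1 ≤ N → 1 ≤ Z →
      (Nat.card {c : ℕ // c ≤ N ∧ AdmissibleBy Z c} : ℝ) ≤ A * (Real.sqrt N + Z)) ∧
    (∀ c₀ : ℕ, 1 ≤ c₀ → (∀ p : ℕ, p.Prime → ¬ p ^ 4 ∣ c₀) → LocSum c₀ → ∀ M : ℕ, 1 ≤ M →
      ∃ A : ℝ, 0 < A ∧ ∃ N₀ : ℕ, ∀ N : ℕ, N₀ ≤ N →
        Real.sqrt N / Real.log N ≤
          A * (Nat.card {c : ℕ // c ≤ N ∧ c ≡ c₀ [MOD M] ∧ AdmissibleBy A c} : ℝ)) := by
  have hpos : ∀ c : ℕ, (∃ x y z : ℤ, IsCoprime x y ∧ 1 < z ∧ x ^ 4 + y ^ 4 = (c : ℤ) * z ^ 4) → 1 ≤ c := by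
    rintro c ⟨x, y, z, hxy, hz, e⟩
    rcases Nat.eq_zero_or_pos c with hc | hc
    · exfalso
      rw [hc, Nat.cast_zero, zero_mul] at e
      have hx4 : 0 ≤ x ^ 4 := by positivity
      have hy4 : 0 ≤ y ^ 4 := by positivity
      have hx : x = 0 := by
        have : x ^ 4 = 0 := by omega
        exact (pow_eq_zero_iff (by norm_num)).1 this
      have hy : y = 0 := by
        have : y ^ 4 = 0 := by omega
        exact (pow_eq_zero_iff (by norm_num)).1 this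
      rw [hx, hy] at hxy
      exact not_isCoprime_zero_zero hxy
    · exact hc
  refine ⟨?_, ?_⟩
  · obtain ⟨A, hA, h⟩ := FD.up_small
    refine ⟨A, hA, fun N Z hN hZ => ?_⟩
    have hZ1 : 1 ≤ ⌊Z⌋₊ := Nat.le_floor (by exact_mod_cast hZ)
    have h1 := h N ⌊Z⌋₊ hN hZ1
    have hfl : ((⌊Z⌋₊ : ℕ) : ℝ) ≤ Z := Nat.floor_le (by linarith)
    have hfin : Finite {c : ℕ // 1 ≤ c ∧ c ≤ N ∧ ∃ (x y : ℤ) (z : ℕ), IsCoprime x y ∧ 1 ≤ z ∧ z ≤ ⌊Z⌋₊ ∧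
        x ^ 4 + y ^ 4 = (c : ℤ) * (z : ℤ) ^ 4} :=
      Set.Finite.to_subtype ((Set.finite_Iic N).subset fun _ hc => hc.2.1)
    have h2 : Nat.card {c : ℕ // c ≤ N ∧ AdmissibleBy Z c} ≤
        Nat.card {c : ℕ // 1 ≤ c ∧ c ≤ N ∧ ∃ (x y : ℤ) (z : ℕ), IsCoprime x y ∧ 1 ≤ z ∧ z ≤ ⌊Z⌋₊ ∧
        x ^ 4 + y ^ 4 = (c : ℤ) * (z : ℤ) ^ 4} := by
      refine Nat.card_le_card_of_injective (fun c => ⟨c.1, ?_, c.2.1, ?_⟩) ?_
      · obtain ⟨x, y, z, hxy, hz, -, e⟩ := c.2.2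
        exact hpos c.1 ⟨x, y, z, hxy, hz, e⟩
      · obtain ⟨x, y, z, hxy, hz, hzZ, e⟩ := c.2.2
        lift z to ℕ using (by omega)
        refine ⟨x, y, z, hxy, by omega, Nat.le_floor (by exact_mod_cast hzZ), e⟩
      · intro a b hab
        have h3 := congrArg Subtype.val hab
        exact Subtype.ext h3
    calc (Nat.card {c : ℕ // c ≤ N ∧ AdmissibleBy Z c} : ℝ) ≤
        (Nat.card {c : ℕ // 1 ≤ c ∧ c ≤ N ∧ ∃ (x y : ℤ) (z : ℕ), IsCoprime x y ∧ 1 ≤ z ∧ z ≤ ⌊Z⌋₊ ∧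
        x ^ 4 + y ^ 4 = (c : ℤ) * (z : ℤ) ^ 4} : ℝ) := by exact_mod_cast h2
      _ ≤ A * (Real.sqrt N + (⌊Z⌋₊ : ℕ)) := h1
      _ ≤ A * (Real.sqrt N + Z) := mul_le_mul_of_nonneg_left (by linarith) hA.le
  · intro c₀ hc₀ hf hloc M hM
    obtain ⟨A, hA, N0, h⟩ := FD.low_small c₀ hc₀ hf hloc M hM
    refine ⟨A, hA, max N0 2, fun N hN => ?_⟩
    have hN0 : N0 ≤ N := (le_max_left _ _).trans hN
    have hN2 : 2 ≤ N := (le_max_right _ _).trans hN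
    have hL : 0 < Real.log N := Real.log_pos (by exact_mod_cast (by omega : 1 < N))
    have h1 := h N hN0
    have hfin : Finite {c : ℕ // c ≤ N ∧ c ≡ c₀ [MOD M] ∧ AdmissibleBy A c} :=
      Set.Finite.to_subtype ((Set.finite_Iic N).subset fun _ hc => hc.1)
    have h2 : Nat.card {c : ℕ // 1 ≤ c ∧ c ≤ N ∧ (M : ℤ) ∣ (c : ℤ) - c₀ ∧ ∃ (x y : ℤ) (z : ℕ), IsCoprime x y ∧ 1 < z ∧
        (z : ℝ) ≤ A ∧ x ^ 4 + y ^ 4 = (c : ℤ) * (z : ℤ) ^ 4} ≤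
        Nat.card {c : ℕ // c ≤ N ∧ c ≡ c₀ [MOD M] ∧ AdmissibleBy A c} := by
      refine Nat.card_le_card_of_injective (fun c => ⟨c.1, c.2.2.1, ?_, ?_⟩) ?_
      · rw [Nat.modEq_iff_dvd, ← dvd_neg, neg_sub]
        exact c.2.2.2.1
      · obtain ⟨x, y, z, hxy, hz, hzA, e⟩ := c.2.2.2.2
        exact ⟨x, y, z, hxy, by exact_mod_cast hz, by exact_mod_cast hzA, e⟩
      · intro a b hab
        have h3 := congrArg Subtype.val hab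
        exact Subtype.ext h3
    have h3 : (Nat.card {c : ℕ // 1 ≤ c ∧ c ≤ N ∧ (M : ℤ) ∣ (c : ℤ) - c₀ ∧ ∃ (x y : ℤ) (z : ℕ), IsCoprime x y ∧ 1 < z ∧
        (z : ℝ) ≤ A ∧ x ^ 4 + y ^ 4 = (c : ℤ) * (z : ℤ) ^ 4} : ℝ) ≤
        (Nat.card {c : ℕ // c ≤ N ∧ c ≡ c₀ [MOD M] ∧ AdmissibleBy A c} : ℝ) := by exact_mod_cast h2
    rw [div_le_iff₀ hL]
    calc Real.sqrt N ≤ A * Real.log N * _ := h1
      _ ≤ A * Real.log N * (Nat.card {c : ℕ // c ≤ N ∧ c ≡ c₀ [MOD M] ∧ AdmissibleBy A c} : ℝ) :=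
          mul_le_mul_of_nonneg_left h3 (by positivity)
      _ = A * (Nat.card {c : ℕ // c ≤ N ∧ c ≡ c₀ [MOD M] ∧ AdmissibleBy A c} : ℝ) * Real.log N := by ring

end Pool.Agent.Results.MP_9b5ce2_nt.SmallSolutions
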