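import Pool.Agent.Lib.MP_9b5ce2_nt.Prim

/-!
# MP_9b5ce2_nt, Q1: the square classes of the admissible integers

`c` is admissible if `x^4 + y^4 = c z^4` has a solution with `x, y` coprime and `z > 1`.

For every squarefree integer `k` the following are equivalent:
* some `k m^2` is admissible;
* for every `N` there is a squarefree `m > N` such that `k m^2` is admissible (and `k m^2` is fourth-power-free);
* the curve `x^4 + y^4 = k w^2` has a nontrivial point: coprime integers `x, y` with `x y (x^2 - y^2) ≠ 0`.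

So the fourth-power-free admissible integers in a square class are either none or infinitely many, and the second case is decided by
a curve of genus one.
-/

namespace Pool.Agent.Results.MP_9b5ce2_nt.SquareClasses

/-- `c` is admissible: `x^4 + y^4 = c z^4` has a solution in integers with `x, y` coprime and `z > 1` -/
def Admissible (c : ℤ) : Prop := ∃ x y z : ℤ, IsCoprime x y ∧ 1 < z ∧ x ^ 4 + y ^ 4 = c * z ^ 4

theorem aux_sq {x y : ℤ} (hc : IsCoprime x y) (h : x ^ 2 = y ^ 2) : x ^ 2 = 1 := by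
  have h1 : IsCoprime (x ^ 2) (y ^ 2) := hc.pow
  rw [← h] at h1
  have h2 : IsUnit (x ^ 2) := by
    rwa [isCoprime_self] at h1
  rcases Int.isUnit_iff.1 h2 with h3 | h3
  · exact h3
  · have h4 := sq_nonneg x
    omega

theorem one_lt_aux {c z : ℤ} (hz : 1 < z) (h : c * z ^ 4 = 1 ∨ c * z ^ 4 = 2) : False := by
  have h16 : (16 : ℤ) ≤ z ^ 4 := by
    have h1 : (2 : ℤ) ^ 4 ≤ z ^ 4 := pow_le_pow_left₀ (by norm_num) hz 4
    norm_num at h1
    exact h1
  have hc : 0 < c := by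
    by_contra hc
    have h1 : c * z ^ 4 ≤ 0 := mul_nonpos_of_nonpos_of_nonneg (not_lt.1 hc) (by positivity)
    omega
  have h2 : 16 ≤ c * z ^ 4 := by nlinarith
  omega

theorem result (k : ℤ) (hk : Squarefree k) :
    [(∃ m : ℤ, Admissible (k * m ^ 2)),
     (∀ N : ℕ, ∃ m : ℕ, N < m ∧ Squarefree m ∧ Admissible (k * (m : ℤ) ^ 2) ∧
        ∀ d : ℤ, d ^ 4 ∣ k * (m : ℤ) ^ 2 → IsUnit d),
     (∃ x y w : ℤ, IsCoprime x y ∧ x * y * (x ^ 2 - y ^ 2) ≠ 0 ∧ x ^ 4 + y ^ 4 = k * w ^ 2)].TFAE := by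
  tfae_have 1 → 3 := by
    rintro ⟨m, x, y, z, hc, hz, h⟩
    refine ⟨x, y, m * z ^ 2, hc, ?_, by rw [h]; ring⟩
    intro h0
    rcases mul_eq_zero.1 h0 with h1 | h1
    · rcases mul_eq_zero.1 h1 with h2 | h2
      · subst h2
        have h3 : IsUnit y := (isCoprime_zero_left).1 hc
        have h4 : y ^ 2 = 1 := by
          rcases Int.isUnit_iff.1 h3 with h5 | h5 <;> rw [h5] <;> norm_num
        apply one_lt_aux hz (c := k * m ^ 2)
        left
        rw [← h]
        have e1 : (0 : ℤ) ^ 4 + y ^ 4 = (y ^ 2) ^ 2 := by ring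
        rw [e1, h4]
        norm_num
      · subst h2
        have h3 : IsUnit x := (isCoprime_zero_right).1 hc
        have h4 : x ^ 2 = 1 := by
          rcases Int.isUnit_iff.1 h3 with h5 | h5 <;> rw [h5] <;> norm_num
        apply one_lt_aux hz (c := k * m ^ 2)
        left
        rw [← h]
        have e1 : x ^ 4 + (0 : ℤ) ^ 4 = (x ^ 2) ^ 2 := by ring
        rw [e1, h4]
        norm_num
    · have h2 : x ^ 2 = y ^ 2 := by linarith
      have h3 := aux_sq hc h2
      have h4 : y ^ 2 = 1 := by rw [← h2, h3]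
      apply one_lt_aux hz (c := k * m ^ 2)
      right
      rw [← h]
      have e1 : x ^ 4 + y ^ 4 = (x ^ 2) ^ 2 + (y ^ 2) ^ 2 := by ring
      rw [e1, h3, h4]
      norm_num
  tfae_have 3 → 2 := by
    rintro ⟨x, y, w, hc, hne, h⟩ N
    have h2 : 2 < x ^ 4 + y ^ 4 := by
      have hx : x ≠ 0 := by rintro rfl; simp at hne
      have hy : y ≠ 0 := by rintro rfl; simp at hne
      have hxy : x ^ 2 ≠ y ^ 2 := by
        intro h3
        apply hne
        rw [h3]
        ring
      have hx1 : 1 ≤ x ^ 2 := by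
        have : 0 < x ^ 2 := by positivity
        omega
      have hy1 : 1 ≤ y ^ 2 := by
        have : 0 < y ^ 2 := by positivity
        omega
      have e1 : x ^ 4 + y ^ 4 = (x ^ 2) * (x ^ 2) + (y ^ 2) * (y ^ 2) := by ring
      rw [e1]
      rcases lt_or_gt_of_ne hxy with h3 | h3
      · nlinarith
      · nlinarith
    obtain ⟨x₁, y₁, w₁, q, c1, c2, c3, hq, hNq, hqw⟩ := Quart.big_prime hk hc h h2 N
    have hw₁ : w₁ ≠ 0 := (Quart.k_pos c3 c2).2
    have hqz : Prime (q : ℤ) := Nat.prime_iff_prime_int.1 hq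
    have hq2 : q ≠ 2 := by
      rintro rfl
      have h3 : IsCoprime 2 w₁ := Quart.coprime_two c1 c2
      exact hqz.not_isUnit (h3.isUnit_of_dvd' (by norm_num) hqw)
    -- the exact power of `q` in `w₁`
    obtain ⟨e, he, he1, he2⟩ : ∃ e : ℕ, 1 ≤ e ∧ (q : ℤ) ^ e ∣ w₁ ∧ ¬ (q : ℤ) ^ (e + 1) ∣ w₁ := by
      have hfin : FiniteMultiplicity (q : ℤ) w₁ :=
        Int.finiteMultiplicity_iff.2 ⟨by simpa using hq.one_lt.ne', hw₁⟩
      refine ⟨multiplicity (q : ℤ) w₁, ?_, pow_multiplicity_dvd _ _, hfin.not_pow_dvd_of_multiplicity_lt (Nat.lt_succ_self _)⟩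
      by_contra hcon
      have h3 : multiplicity (q : ℤ) w₁ = 0 := by omega
      exact (multiplicity_eq_zero.1 h3) hqw
    obtain ⟨x₂, y₂, w₂, d1, d2, d3, d4⟩ := Quart.psteps hk hq hq2 he c1 c2 he1 he2 (e + 1)
    have e1 : e + (e + 1) = 2 * e + 1 := by ring
    rw [e1] at d3 d4
    obtain ⟨a, b, f1, f2, f3, f4⟩ := Quart.split_sq hq he d3 d4
    have ha0 : a ≠ 0 := f2.ne_zero
    refine ⟨a, lt_of_lt_of_le hNq (Nat.le_of_dvd (Nat.pos_of_ne_zero ha0) f3), f2, ?_, ?_⟩
    · refine ⟨x₂, y₂, b, d1, by exact_mod_cast f4, ?_⟩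
      rw [d2]
      have h3 : (w₂ : ℤ) ^ 2 = ((w₂.natAbs : ℕ) : ℤ) ^ 2 := by
        rw [Int.natCast_natAbs, sq_abs]
      rw [h3, f1]
      push_cast
      ring
    · intro d hd
      exact Quart.fourth_free hk (Int.squarefree_natCast.2 f2) d hd
  tfae_have 2 → 1 := by
    intro h
    obtain ⟨m, -, -, h1, -⟩ := h 0
    exact ⟨m, h1⟩
  tfae_finish

end Pool.Agent.Results.MP_9b5ce2_nt.SquareClasses
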